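import Pool.Agent.TH740.DW.Shift

/-!
# Averages over the fibres of `lin`, periodic bumps
(MP_4ccfbf_an, Q2; helper file for job 2115)
-/

set_option autoImplicit false

open MeasureTheory Complex Filter Topology Set
open scoped ENNReal Real
open Pool.Agent.TH281.DW

namespace Pool.Agent.TH740.DW

noncomputable section

theorem continuous_toT : Continuous toT := by
  unfold toT
  refine continuous_pi fun i => ?_
  exact (AddCircle.continuous_mk' (1 : ℝ)).comp (continuous_apply i)

theorem toT_add (X Y : Fin 2 → ℝ) : toT (X + Y) = toT X + toT Y := by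
  funext i; simp [toT, AddCircle.coe_add]

theorem toT_int (n : Fin 2 → ℤ) : toT (fun i => (n i : ℝ)) = 0 := by
  funext i
  simp only [toT, Pi.zero_apply]
  rw [AddCircle.coe_eq_zero_iff]
  exact ⟨n i, by simp⟩

theorem continuous_sh (d : Z2) : Continuous (sh d) := by
  unfold sh
  refine continuous_toT.comp (continuous_pi fun i => ?_)
  split_ifs <;> fun_prop

theorem sh_add (d : Z2) (s t : ℝ) : sh d (s + t) = sh d s + sh d t := by
  unfold sh
  rw [← toT_add]
  congr 1
  funext i
  simp only [Pi.add_apply]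
  split_ifs <;> ring

theorem sh_one (d : Z2) : sh d 1 = 0 := by
  unfold sh
  rw [← toT_int (fun i => if i = 0 then d 1 else -(d 0))]
  congr 1
  funext i
  split_ifs <;> simp

/-- the kernel of `lin` -/
theorem ker_lin {d : Z2} (hd : IsCoprime (d 0) (d 1)) {z : Torus} (hz : lin d z = 0) :
    ∃ t : ℝ, z = sh d t := by
  obtain ⟨Z, rfl⟩ := toT_surj z
  rw [lin_toT, AddCircle.coe_eq_zero_iff] at hz
  obtain ⟨n, hn⟩ := hz
  obtain ⟨a, b, hab⟩ := hd
  have hd' : IsCoprime (d 0) (d 1) := ⟨a, b, hab⟩
  have habR : (a : ℝ) * d 0 + (b : ℝ) * d 1 = 1 := by exact_mod_cast hab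
  simp only [zsmul_eq_mul, mul_one] at hn
  have hf := (fqR_pos hd').ne'
  set Z' : Fin 2 → ℝ := fun i => Z i - n * (if i = 0 then (a : ℝ) else b) with hZ'
  have h0 : (d 0 : ℝ) * Z' 0 + (d 1 : ℝ) * Z' 1 = 0 := by
    simp only [hZ', if_true, Fin.isValue, one_ne_zero, if_false]
    linear_combination (-(n : ℝ)) * habR - hn
  have h1 : toT Z = toT Z' := by
    have : Z = Z' + fun i => (((if i = 0 then n * a else n * b : ℤ)) : ℝ) := by
      funext i
      simp only [hZ', Pi.add_apply]
      split_ifs <;> push_cast <;> ring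
    rw [this, toT_add, toT_int, add_zero]
  refine ⟨(Z' 0 * d 1 - Z' 1 * d 0) / (fq d : ℝ), ?_⟩
  rw [h1]
  unfold sh
  congr 1
  funext i
  rw [fqR] at hf ⊢
  fin_cases i
  · simp only [Fin.zero_eta, if_true, Fin.isValue]
    field_simp
    linear_combination (d 0 : ℝ) * h0
  · simp only [Fin.mk_one, Fin.isValue, one_ne_zero, if_false]
    field_simp
    linear_combination (d 1 : ℝ) * h0

/-- the average over the fibre -/
def av (d : Z2) (χ : Torus → ℝ) (x : Torus) : ℝ := ∫ t in (0 : ℝ)..1, χ (x + sh d t)

theorem continuous_av (d : Z2) {χ : Torus → ℝ} (hχ : Continuous χ) : Continuous (av d χ) := by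
  unfold av
  refine intervalIntegral.continuous_parametric_intervalIntegral_of_continuous' ?_ 0 1
  exact hχ.comp (continuous_fst.add ((continuous_sh d).comp continuous_snd))

theorem av_nonneg (d : Z2) {χ : Torus → ℝ} (h0 : ∀ x, 0 ≤ χ x) (x : Torus) : 0 ≤ av d χ x :=
  intervalIntegral.integral_nonneg zero_le_one fun _ _ => h0 _

theorem av_pos (d : Z2) {χ : Torus → ℝ} (hχ : Continuous χ) (h0 : ∀ x, 0 ≤ χ x) {x : Torus}
    (hx : 0 < χ x) : 0 < av d χ x := by
  unfold av
  refine intervalIntegral.integral_pos zero_lt_one ?_ (fun t _ => h0 _) ⟨0, by simp, ?_⟩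
  · exact (hχ.comp (continuous_const.add (continuous_sh d))).continuousOn
  · have : sh d 0 = 0 := by
      have := sh_add d 0 0
      simpa using this
    rw [this, add_zero]; exact hx

theorem av_shift (d : Z2) (χ : Torus → ℝ) (x : Torus) (u : ℝ) :
    av d χ (x + sh d u) = av d χ x := by
  unfold av
  have hp : Function.Periodic (fun t => χ (x + sh d t)) 1 := by
    intro t
    simp only [sh_add, sh_one, add_zero]
  have h1 := hp.intervalIntegral_add_eq u 0
  rw [zero_add] at h1
  rw [← h1]
  have h2 := intervalIntegral.integral_comp_add_left (fun t => χ (x + sh d t)) u (a := 0) (b := 1)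
  rw [add_zero] at h2
  rw [← h2]
  simp only [sh_add, add_assoc]

theorem av_lin {d : Z2} (hd : IsCoprime (d 0) (d 1)) (χ : Torus → ℝ) {x x' : Torus}
    (h : lin d x = lin d x') : av d χ x = av d χ x' := by
  obtain ⟨t, ht⟩ := ker_lin hd (z := x - x') (by rw [map_sub, h, sub_self])
  rw [show x = x' + sh d t by rw [← ht]; abel, av_shift]

/-- averaging does not change the integral against functions of constant modulus on fibres -/
theorem integral_av (d : Z2) {χ : Torus → ℝ} (hχ : Continuous χ) {f : Torus → ℝ}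
    (hf : Continuous f) (hfs : ∀ x t, f (x + sh d t) = f x) :
    ∫ x, av d χ x * f x ∂tmu = ∫ x, χ x * f x ∂tmu := by
  have hc2 : Continuous fun p : Torus × ℝ => χ (p.1 + sh d p.2) * f p.1 :=
    (hχ.comp (continuous_fst.add ((continuous_sh d).comp continuous_snd))).mul
      (hf.comp continuous_fst)
  obtain ⟨C, hC⟩ := isCompact_univ.exists_bound_of_continuousOn (f := χ) hχ.continuousOn
  obtain ⟨D, hD⟩ := isCompact_univ.exists_bound_of_continuousOn (f := f) hf.continuousOn
  have hint : Integrable (Function.uncurry fun (x : Torus) (t : ℝ) => χ (x + sh d t) * f x)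
      (tmu.prod (volume.restrict (Ioc (0 : ℝ) 1))) := by
    refine Integrable.of_bound (C := C * D) hc2.aestronglyMeasurable (Eventually.of_forall ?_)
    rintro ⟨x, t⟩
    simp only [Function.uncurry_apply_pair, norm_mul]
    exact mul_le_mul (hC _ (mem_univ _)) (hD _ (mem_univ _)) (norm_nonneg _)
      ((norm_nonneg _).trans (hC x (mem_univ _)))
  have h1 : ∀ x, av d χ x * f x = ∫ t in Ioc (0 : ℝ) 1, χ (x + sh d t) * f x := by
    intro x
    unfold av
    rw [intervalIntegral.integral_of_le zero_le_one, ← MeasureTheory.integral_mul_const]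
  simp only [h1]
  rw [MeasureTheory.integral_integral_swap hint]
  have h2 : ∀ t : ℝ, ∫ x, χ (x + sh d t) * f x ∂tmu = ∫ x, χ x * f x ∂tmu := by
    intro t
    have := MeasureTheory.integral_add_right_eq_self (μ := tmu) (fun x => χ x * f x) (sh d t)
    simp only [hfs] at this
    exact this
  simp only [h2]
  simp

end

end Pool.Agent.TH740.DW
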