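import Pool.Agent.TH281.DW.Stmts

/-!
# The projection of the torus to the circle in a primitive direction
(MP_4ccfbf_an, Q2; helper file for jobs 2113, 2114, 2115)
-/

set_option autoImplicit false

open MeasureTheory Complex Filter Topology Set
open scoped ENNReal Real
open Pool.Agent.TH281.DW

namespace Pool.Agent.TH740.DW

noncomputable section

/-- the homomorphism `x ↦ x · d` from the torus to the circle -/
def lin (d : Z2) : Torus →+ UnitAddCircle where
  toFun x := d 0 • x 0 + d 1 • x 1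
  map_zero' := by simp
  map_add' x y := by simp only [Pi.add_apply, smul_add]; abel

theorem lin_apply (d : Z2) (x : Torus) : lin d x = d 0 • x 0 + d 1 • x 1 := rfl

theorem continuous_lin (d : Z2) : Continuous (lin d) := by
  change Continuous fun x : Torus => d 0 • x 0 + d 1 • x 1
  exact ((continuous_zsmul _).comp (continuous_apply 0)).add
    ((continuous_zsmul _).comp (continuous_apply 1))

theorem lin_toT (d : Z2) (X : Fin 2 → ℝ) :
    lin d (toT X) = (((d 0 : ℝ) * X 0 + (d 1 : ℝ) * X 1 : ℝ) : UnitAddCircle) := by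
  rw [lin_apply]
  simp only [toT, AddCircle.coe_add]
  congr 1 <;> (rw [← zsmul_eq_mul]; rfl)

theorem toT_surj (x : Torus) : ∃ X : Fin 2 → ℝ, toT X = x := by
  have h : ∀ i, ∃ t : ℝ, (t : UnitAddCircle) = x i := fun i =>
    QuotientAddGroup.mk_surjective (x i)
  choose X hX using h
  exact ⟨X, funext hX⟩

theorem fq_pos {d : Z2} (hd : IsCoprime (d 0) (d 1)) : 0 < fq d := by
  unfold fq
  rcases eq_or_ne (d 0) 0 with h | h
  · have h1 : d 1 ≠ 0 := by
      intro h1; rw [h, h1] at hd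
      obtain ⟨a, b, hab⟩ := hd
      simp at hab
    positivity
  · positivity

theorem fqR_pos {d : Z2} (hd : IsCoprime (d 0) (d 1)) : (0 : ℝ) < (fq d : ℝ) := by
  exact_mod_cast fq_pos hd

theorem fqR (d : Z2) : (fq d : ℝ) = (d 0 : ℝ) ^ 2 + (d 1 : ℝ) ^ 2 := by
  unfold fq; push_cast; ring

theorem lin_section {d : Z2} (hd : IsCoprime (d 0) (d 1)) (s : ℝ) :
    lin d (toT (fun i => s * (d i : ℝ) / (fq d : ℝ))) = (s : UnitAddCircle) := by
  rw [lin_toT]
  congr 1
  have h := (fqR_pos hd).ne'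
  field_simp
  rw [fqR]

theorem lin_surj {d : Z2} (hd : IsCoprime (d 0) (d 1)) : Function.Surjective (lin d) := by
  intro y
  obtain ⟨s, rfl⟩ := QuotientAddGroup.mk_surjective y
  exact ⟨_, lin_section hd s⟩

/-- `lin` is measure preserving -/
theorem mp_lin {d : Z2} (hd : IsCoprime (d 0) (d 1)) :
    MeasurePreserving (lin d) tmu (AddCircle.haarAddCircle : Measure UnitAddCircle) := by
  refine AddMonoidHom.measurePreserving (continuous_lin d) (lin_surj hd) ?_
  simp

/-- integral over the circle -/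
theorem integral_circle {G : Type*} [NormedAddCommGroup G] [NormedSpace ℝ G]
    (f : UnitAddCircle → G) :
    ∫ y, f y ∂(AddCircle.haarAddCircle : Measure UnitAddCircle) =
      ∫ s in (0 : ℝ)..1, f (s : UnitAddCircle) := by
  have h1 := UnitAddCircle.intervalIntegral_preimage 0 f
  rw [zero_add] at h1
  rw [h1, AddCircle.volume_eq_smul_haarAddCircle]
  simp

/-- transfer of integrals -/
theorem transfer {d : Z2} (hd : IsCoprime (d 0) (d 1)) {G : Type*} [NormedAddCommGroup G]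
    [NormedSpace ℝ G] (f : UnitAddCircle → G)
    (hf : AEStronglyMeasurable f (AddCircle.haarAddCircle : Measure UnitAddCircle)) :
    ∫ x, f (lin d x) ∂tmu = ∫ s in (0 : ℝ)..1, f (s : UnitAddCircle) := by
  rw [← integral_circle, ← (mp_lin hd).map_eq]
  rw [integral_map (continuous_lin d).measurable.aemeasurable]
  rw [(mp_lin hd).map_eq]
  exact hf

/-- the phase decomposition -/
theorem tr_toT {d : Z2} (hd : IsCoprime (d 0) (d 1)) {m : ℤ} {F : Finset Z2}
    (hF : ∀ k ∈ F, cr k d = m) (c : Z2 → ℂ) (X : Fin 2 → ℝ) :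
    tr F c (toT X) = cexp (2 * π * I * ((m : ℝ) * (X 0 * d 1 - X 1 * d 0) / (fq d : ℝ) : ℝ)) *
      yv F c d ((d 0 : ℝ) * X 0 + (d 1 : ℝ) * X 1) := by
  unfold tr yv
  rw [Finset.mul_sum]
  refine Finset.sum_congr rfl fun k hk => ?_
  rw [E_toT, mul_left_comm, ← Complex.exp_add]
  congr 2
  rw [← mul_add, ← Complex.ofReal_add]
  congr 2
  have h := (fqR_pos hd).ne'
  have hk' : ((k 0 : ℝ) * d 1 - k 1 * d 0) = m := by
    have := hF k hk
    unfold cr at this
    exact_mod_cast this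
  rw [← hk']
  have hdt : (dt k d : ℝ) = k 0 * d 0 + k 1 * d 1 := by unfold dt; push_cast; ring
  rw [hdt]
  field_simp
  rw [fqR]; ring

theorem norm_tr_toT {d : Z2} (hd : IsCoprime (d 0) (d 1)) {m : ℤ} {F : Finset Z2}
    (hF : ∀ k ∈ F, cr k d = m) (c : Z2 → ℂ) (X : Fin 2 → ℝ) :
    ‖tr F c (toT X)‖ = ‖yv F c d ((d 0 : ℝ) * X 0 + (d 1 : ℝ) * X 1)‖ := by
  rw [tr_toT hd hF, norm_mul]
  have : ‖cexp (2 * π * I * ((m : ℝ) * (X 0 * d 1 - X 1 * d 0) / (fq d : ℝ) : ℝ))‖ = 1 := by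
    rw [show (2 * π * I * (((m : ℝ) * (X 0 * d 1 - X 1 * d 0) / (fq d : ℝ) : ℝ) : ℂ)) =
      ((2 * π * ((m : ℝ) * (X 0 * d 1 - X 1 * d 0) / (fq d : ℝ)) : ℝ) : ℂ) * I by
        push_cast; ring]
    exact Complex.norm_exp_ofReal_mul_I _
  rw [this, one_mul]

/-- differences along the line are multiples of `d` -/
theorem par {d : Z2} (hd : IsCoprime (d 0) (d 1)) {n : Z2} (hn : cr n d = 0) :
    ∃ j : ℤ, n 0 = j * d 0 ∧ n 1 = j * d 1 := by
  obtain ⟨a, b, hab⟩ := hd
  unfold cr at hn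
  refine ⟨a * n 0 + b * n 1, ?_, ?_⟩
  · linear_combination (-(n 0)) * hab + b * hn
  · linear_combination (-(n 1)) * hab - a * hn

theorem dt_par {d : Z2} (hd : IsCoprime (d 0) (d 1)) {n : Z2} {j : ℤ}
    (h0 : n 0 = j * d 0) (h1 : n 1 = j * d 1) : (dt n d : ℝ) / (fq d : ℝ) = j := by
  rw [div_eq_iff (fqR_pos hd).ne']
  have : dt n d = j * fq d := by unfold dt fq; rw [h0, h1]; ring
  exact_mod_cast this

theorem dt_sub (k l d : Z2) : dt (k - l) d = dt k d - dt l d := by
  unfold dt; simp only [Pi.sub_apply]; ring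

theorem cr_sub (k l d : Z2) : cr (k - l) d = cr k d - cr l d := by
  unfold cr; simp only [Pi.sub_apply]; ring

/-- quasi-periodicity of the profile -/
theorem yv_add_one {d : Z2} (hd : IsCoprime (d 0) (d 1)) {m : ℤ} {F : Finset Z2}
    (hF : ∀ k ∈ F, cr k d = m) : ∃ ω : ℂ, ‖ω‖ = 1 ∧ ∀ (c : Z2 → ℂ) (s : ℝ),
      yv F c d (s + 1) = ω * yv F c d s := by
  rcases F.eq_empty_or_nonempty with rfl | ⟨k0, hk0⟩
  · exact ⟨1, by simp, fun c s => by simp [yv]⟩
  · refine ⟨cexp (((2 * π * ((dt k0 d : ℝ) / (fq d : ℝ)) : ℝ) : ℂ) * I),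
      Complex.norm_exp_ofReal_mul_I _, fun c s => ?_⟩
    unfold yv
    rw [Finset.mul_sum]
    refine Finset.sum_congr rfl fun k hk => ?_
    obtain ⟨j, hj0, hj1⟩ := par hd (n := k - k0) (by rw [cr_sub, hF k hk, hF k0 hk0, sub_self])
    have hj := dt_par hd hj0 hj1
    rw [dt_sub] at hj
    push_cast at hj
    rw [sub_div] at hj
    have hk1 : (dt k d : ℝ) / (fq d : ℝ) = (dt k0 d : ℝ) / (fq d : ℝ) + j := by linarith
    rw [mul_left_comm, ← Complex.exp_add]
    congr 1
    rw [Complex.exp_eq_exp_iff_exists_int]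
    refine ⟨j, ?_⟩
    have h2 : (dt k d : ℝ) / (fq d : ℝ) * (s + 1) =
        (dt k0 d : ℝ) / (fq d : ℝ) + j + (dt k d : ℝ) / (fq d : ℝ) * s := by
      rw [mul_add, mul_one, hk1]; ring
    rw [h2]
    push_cast
    ring

theorem norm_yv_periodic {d : Z2} (hd : IsCoprime (d 0) (d 1)) {m : ℤ} {F : Finset Z2}
    (hF : ∀ k ∈ F, cr k d = m) (c : Z2 → ℂ) : Function.Periodic (fun s => ‖yv F c d s‖) 1 := by
  obtain ⟨ω, hω, h⟩ := yv_add_one hd hF
  intro s
  simp only [h, norm_mul, hω, one_mul]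

theorem continuous_yv (F : Finset Z2) (c : Z2 → ℂ) (d : Z2) : Continuous (yv F c d) := by
  unfold yv
  refine continuous_finsetSum _ fun k _ => ?_
  fun_prop

end

end Pool.Agent.TH740.DW
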