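import Pool.Agent.TH740.DW.Lin

/-!
# Translations in the direction of the fibres of `lin`
(MP_4ccfbf_an, Q2; helper file for jobs 2114, 2115)
-/

set_option autoImplicit false

open MeasureTheory Complex Filter Topology Set
open scoped ENNReal Real
open Pool.Agent.TH281.DW

namespace Pool.Agent.TH740.DW

noncomputable section

/-- translation by `t (d 1, - d 0)` -/
def sh (d : Z2) (t : ℝ) : Torus := toT (fun i => if i = 0 then t * d 1 else -(t * d 0))

theorem lin_sh (d : Z2) (t : ℝ) : lin d (sh d t) = 0 := by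
  unfold sh
  rw [lin_toT]
  have : (d 0 : ℝ) * (if (0 : Fin 2) = 0 then t * (d 1 : ℝ) else -(t * d 0)) +
      (d 1 : ℝ) * (if (1 : Fin 2) = 0 then t * (d 1 : ℝ) else -(t * d 0)) = 0 := by
    simp; ring
  rw [this]; rfl

theorem E_sh (k d : Z2) (t : ℝ) :
    E k (sh d t) = cexp (2 * π * I * ((cr k d : ℝ) * t : ℝ)) := by
  unfold sh
  rw [E_toT]
  congr 3
  unfold cr
  simp
  ring

theorem tr_sh {d : Z2} {m : ℤ} {F : Finset Z2} (hF : ∀ k ∈ F, cr k d = m) (c : Z2 → ℂ)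
    (x : Torus) (t : ℝ) :
    tr F c (x + sh d t) = cexp (2 * π * I * ((m : ℝ) * t : ℝ)) * tr F c x := by
  unfold tr
  rw [Finset.mul_sum]
  refine Finset.sum_congr rfl fun k hk => ?_
  rw [E_add, E_sh, hF k hk]
  ring

theorem norm_e (r : ℝ) : ‖cexp (2 * π * I * (r : ℂ))‖ = 1 := by
  rw [show (2 * π * I * (r : ℂ)) = ((2 * π * r : ℝ) : ℂ) * I by push_cast; ring]
  exact Complex.norm_exp_ofReal_mul_I _

theorem norm_tr_sh {d : Z2} {m : ℤ} {F : Finset Z2} (hF : ∀ k ∈ F, cr k d = m) (c : Z2 → ℂ)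
    (x : Torus) (t : ℝ) : ‖tr F c (x + sh d t)‖ = ‖tr F c x‖ := by
  rw [tr_sh hF, norm_mul, norm_e, one_mul]

end

end Pool.Agent.TH740.DW
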